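import Pool.Agent.W_332fe5.Geo

set_option autoImplicit false

/-!
The interface between the probabilistic part (sections 3, 4 of the blueprint) and the analytic part
(sections 5, 6, 7): a stopped solution of the scalar swirl equation, in the form of Ito formulas
in expectation.  The process `w` is killed at `S` (so `∫_0^(t ∧ S)` is `∫_0^t`), the processes
`X h = ⟨Γ(t ∧ S), h⟩` are stopped at `S`.
-/

open MeasureTheory ProbabilityTheory Set Filter Topology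
open scoped ENNReal NNReal

namespace Pool.Agent.W_332fe5

structure Core (zt p κ δ q : ℝ) where
  Ω : Type
  mΩ : MeasurableSpace Ω
  P : Measure Ω
  prob : IsProbabilityMeasure P
  S : Ω → ℝ
  S_meas : Measurable S
  S_nonneg : ∀ ω, 0 ≤ S ω
  S_le : ∀ ω, S ω ≤ 1
  w : ℝ → Ω → L2
  w_meas : StronglyMeasurable fun z : ℝ × Ω => w z.1 z.2
  w_zero : ∀ t ω, t ≤ 0 ∨ S ω ≤ t → w t ω = 0
  w_mem : ∀ t ω, w t ω ∈ Hs Bl
  w_rot : ∀ t ω, RotInv (w t ω)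
  w_int : ∀ ω, ∫⁻ t in Ioo (0 : ℝ) 1,
    eLpNorm (w t ω) (ENNReal.ofReal q) volume ^ p * ENNReal.ofReal (t ^ κ) ≤ 1
  X : (E3 → ℝ) → ℝ → Ω → ℝ
  X_meas : ∀ h ∈ CB, ∀ t, Measurable (X h t)
  X_cont : ∀ h ∈ CB, ∀ ω, Continuous fun t => X h t ω
  X_lin : ∀ h ∈ CB, ∀ h' ∈ CB, ∀ a : ℝ, ∀ t ω,
    X (fun x => h x + a * h' x) t ω = X h t ω + a * X h' t ω
  X_bdd : ∀ ω, ∃ N : ℝ, ∀ h ∈ CB, ∀ t, |X h t ω| ≤ N * c4 h
  X_init : ∀ h ∈ CB, ∀ ω, X h 0 ω = ∫ x, Gam0 x * h x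
  X_stop : ∀ h ∈ CB, ∀ t ω, S ω ≤ t → X h t ω = X h (S ω) ω
  X_eq : ∀ h ∈ CB, ∀ᵐ z ∂((volume.restrict (Ioo (0 : ℝ) 1)).prod P), z.1 < S z.2 →
    X h z.1 z.2 = ∫ x, Gam δ (w z.1 z.2) x * h x
  X_sq : ∀ h ∈ CB, ∃ K : ℝ, ∀ t, Integrable (fun ω => X h t ω ^ 2) P ∧ ∫ ω, X h t ω ^ 2 ∂P ≤ K
  /-- Ito's formula for `j (X h)`, in expectation. -/
  dynkin : ∀ h ∈ CB, ∀ (j : ℝ → ℝ) (K : ℝ), ContDiff ℝ 3 j →
    (∀ s, |deriv j s| ≤ K ∧ |iteratedDeriv 2 j s| ≤ K ∧ |iteratedDeriv 3 j s| ≤ K) →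
    ∀ t ∈ Icc (0 : ℝ) 1,
      Integrable (fun z : ℝ × Ω => deriv j (X h z.1 z.2) * aF δ (w z.1 z.2) h +
        iteratedDeriv 2 j (X h z.1 z.2) * bF zt δ (w z.1 z.2) h ^ 2 / 2)
        ((volume.restrict (Ioo (0 : ℝ) 1)).prod P) ∧
      ∫ ω, j (X h t ω) ∂P = j (∫ x, Gam0 x * h x) +
        ∫ z in Ioo (0 : ℝ) t ×ˢ univ, (deriv j (X h z.1 z.2) * aF δ (w z.1 z.2) h +
          iteratedDeriv 2 j (X h z.1 z.2) * bF zt δ (w z.1 z.2) h ^ 2 / 2)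
          ∂((volume : Measure ℝ).prod P)
  /-- Ito's product formula with a deterministic weight, in expectation. -/
  product : ∀ h ∈ CB, ∀ h' ∈ CB, ∀ η : ℝ → ℝ, ContDiff ℝ 1 η → ∀ t ∈ Icc (0 : ℝ) 1,
      Integrable (fun z : ℝ × Ω => (if z.1 < S z.2 then 1 else 0) *
        (deriv η z.1 * (X h z.1 z.2 * X h' z.1 z.2) + η z.1 *
          (aF δ (w z.1 z.2) h * X h' z.1 z.2 + aF δ (w z.1 z.2) h' * X h z.1 z.2 +
            bF zt δ (w z.1 z.2) h * bF zt δ (w z.1 z.2) h')))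
        ((volume.restrict (Ioo (0 : ℝ) 1)).prod P) ∧
      ∫ ω, η (min t (S ω)) * (X h t ω * X h' t ω) ∂P =
        η 0 * ((∫ x, Gam0 x * h x) * ∫ x, Gam0 x * h' x) +
        ∫ z in Ioo (0 : ℝ) t ×ˢ univ, (if z.1 < S z.2 then 1 else 0) *
          (deriv η z.1 * (X h z.1 z.2 * X h' z.1 z.2) + η z.1 *
            (aF δ (w z.1 z.2) h * X h' z.1 z.2 + aF δ (w z.1 z.2) h' * X h z.1 z.2 +
              bF zt δ (w z.1 z.2) h * bF zt δ (w z.1 z.2) h'))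
          ∂((volume : Measure ℝ).prod P)

attribute [instance] Core.mΩ Core.prob

/-- Main analytic theorem (sections 5, 6, 7): the stopping time is small with a probability
bounded from below. -/
def CoreMain (zt p κ δ q : ℝ) : Prop :=
  ∃ ε₀ : ℝ, 0 < ε₀ ∧ ∃ T₀ : ℝ, 0 < T₀ ∧ T₀ ≤ 1 ∧ ∀ C : Core zt p κ δ q, ∀ T : ℝ,
    0 < T → T ≤ T₀ → ENNReal.ofReal ε₀ ≤ C.P {ω | C.S ω ≤ T}

/-- Main probabilistic statement (sections 2, 3, 4): well-posedness yields stopped solutions with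
`P (S ≤ T)` small. -/
def LwpCore (zt p κ δ q : ℝ) : Prop :=
  ∀ (r : E3 → ℝ), Measurable r → (∀ x, |r x| ≤ 1) → (∀ a x, r (rot a x) = r x) →
    ∀ (Ω : Type) (_ : MeasurableSpace Ω) (B : Basis Ω),
    LWP B Bl 1 (bEx zt r) (gEx zt r) p κ δ q → ∀ ε : ℝ, 0 < ε → ∀ T₀ : ℝ, 0 < T₀ →
    ∃ T : ℝ, 0 < T ∧ T ≤ T₀ ∧ ∃ C : Core zt p κ δ q, C.P {ω | C.S ω ≤ T} < ENNReal.ofReal ε

theorem not_lwp {zt p κ δ q : ℝ} (h1 : CoreMain zt p κ δ q) (h2 : LwpCore zt p κ δ q)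
    (r : E3 → ℝ) (hr : Measurable r) (hr1 : ∀ x, |r x| ≤ 1) (hr2 : ∀ a x, r (rot a x) = r x)
    (Ω : Type) [MeasurableSpace Ω] (B : Basis Ω) : ¬ LWP B Bl 1 (bEx zt r) (gEx zt r) p κ δ q := by
  intro h
  obtain ⟨ε₀, h3, T₀, h4, _, h5⟩ := h1
  obtain ⟨T, h6, h7, C, h8⟩ := h2 r hr hr1 hr2 Ω _ B h ε₀ h3 T₀ h4
  exact absurd (h5 C T h6 h7) (not_le.2 h8)

end Pool.Agent.W_332fe5
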