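import Mathlib

set_option autoImplicit false

/-!
Definitions for MP_332fe5_pr: the three dimensional stochastic Navier-Stokes equations with no-slip
boundary condition and transport noise; local well-posedness for a critical tuple.

Coordinates.  For `q ≥ 2` all the spaces of the question are isometric to `L^q_σ(O)`:
`X₁ = D(A^β)`, `β = (1 + δ) / 2`: `u = A^(-β) w`, `‖u‖ = ‖w‖_q`;
`X₀`: `u = A^(1-β) v`, `‖u‖ = ‖v‖_q`, that is `⟨u, φ⟩ = ⟨v, A^(1-β) φ⟩ = -⟨v, A^(-β) Δ φ⟩`;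
`u ∈ X₁` with coordinate `w` has `X₀`-coordinate `v = A⁻¹ w`.
-/

open MeasureTheory ProbabilityTheory Set Filter Topology
open scoped ENNReal NNReal

namespace Pool.Agent.W_332fe5

/-! ### Vector fields -/

/-- The physical space `ℝ³`. -/
abbrev E3 := EuclideanSpace ℝ (Fin 3)

/-- `L²(ℝ³; ℝ³)`.  Fields on a domain `O` are extended by zero. -/
noncomputable abbrev L2 := Lp E3 2 (volume : Measure E3)

/-- The `j`-th partial derivative of a vector field. -/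
noncomputable def pd (j : Fin 3) (φ : E3 → E3) (x : E3) : E3 :=
  fderiv ℝ φ x (EuclideanSpace.single j 1)

/-- The divergence. -/
noncomputable def divg (φ : E3 → E3) (x : E3) : ℝ := ∑ j, pd j φ x j

/-- The Laplacian. -/
noncomputable def lapl (φ : E3 → E3) (x : E3) : E3 := ∑ j, pd j (pd j φ) x

/-- Test fields: smooth, divergence free, with compact support in `O`. -/
def TF (O : Set E3) : Set (E3 → E3) :=
  {φ | ContDiff ℝ ((⊤ : ℕ∞) : WithTop ℕ∞) φ ∧ HasCompactSupport φ ∧ tsupport φ ⊆ O ∧ ∀ x, divg φ x = 0}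

/-- The `L²` pairing of two vector fields. -/
noncomputable def pair (f g : E3 → E3) : ℝ := ∫ x, inner ℝ (f x) (g x)

open Classical in
/-- The class in `L²` of a square integrable field (and `0` otherwise). -/
noncomputable def toL2 (f : E3 → E3) : L2 :=
  if h : MemLp f 2 (volume : Measure E3) then h.toLp f else 0

/-- `L²_σ(O)`: the closure of the test fields in `L²`. -/
def Hs (O : Set E3) : Set L2 :=
  {f | ∃ φ : ℕ → E3 → E3, (∀ n, φ n ∈ TF O) ∧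
    Tendsto (fun n => eLpNorm (fun x => f x - φ n x) 2 volume) atTop (𝓝 0)}

/-- `v` is in `V`, the closure of the test fields in `H¹`, with weak derivatives `G j`. -/
def InV (O : Set E3) (v : L2) (G : Fin 3 → L2) : Prop :=
  ∃ φ : ℕ → E3 → E3, (∀ n, φ n ∈ TF O) ∧
    Tendsto (fun n => eLpNorm (fun x => v x - φ n x) 2 volume) atTop (𝓝 0) ∧
    ∀ j, Tendsto (fun n => eLpNorm (fun x => G j x - pd j (φ n) x) 2 volume) atTop (𝓝 0)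

/-! ### The Dirichlet Stokes operator `A` and its powers -/

/-- `v` solves the Stokes resolvent problem `(l + A) v = P f` in `O` with Dirichlet boundary
condition. -/
def IsRes (O : Set E3) (l : ℝ) (f v : L2) : Prop :=
  ∃ G : Fin 3 → L2, InV O v G ∧ ∀ χ ∈ TF O,
    l * pair v χ + ∑ j, pair (G j) (pd j χ) = pair f χ

open Classical in
/-- The resolvent `(l + A)⁻¹ P f`, `l ≥ 0`; in particular `res O 0 f = A⁻¹ P f`. -/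
noncomputable def res (O : Set E3) (l : ℝ) (f : L2) : L2 :=
  if h : ∃ v, IsRes O l f v then h.choose else 0

/-- The negative power `A^(-b) P f`, `0 < b < 1` (Balakrishnan's formula; the first integral is
`π / sin (π b)`). -/
noncomputable def negPow (O : Set E3) (b : ℝ) (f : L2) : L2 :=
  (∫ l in Ioi (0 : ℝ), l ^ (-b) / (1 + l))⁻¹ • ∫ l in Ioi (0 : ℝ), (l ^ (-b)) • res O l f

/-! ### The spaces of the question -/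

/-- `L^q_σ(O)`, `q ≥ 2`. -/
def LqS (O : Set E3) (q : ℝ) : Set L2 :=
  {f | f ∈ Hs O ∧ eLpNorm f (ENNReal.ofReal q) volume < ∞}

/-- The `K`-functional `K(s, u; X₀, X₁)` of the element with `X₀`-coordinate `v`. -/
noncomputable def Kfun (O : Set E3) (q s : ℝ) (v : L2) : ℝ≥0∞ :=
  ⨅ z ∈ LqS O q, eLpNorm (v - res O 0 z : L2) (ENNReal.ofReal q) volume +
    ENNReal.ofReal s * eLpNorm z (ENNReal.ofReal q) volume

/-- The `p`-th power of the norm of `X^tr = (X₀, X₁)_(1 - (1 + κ) / p, p)` of the element with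
`X₀`-coordinate `v`. -/
noncomputable def trPow (O : Set E3) (p κ q : ℝ) (v : L2) : ℝ≥0∞ :=
  ∫⁻ s in Ioi (0 : ℝ),
    (ENNReal.ofReal (s ^ (-(1 - (1 + κ) / p))) * Kfun O q s v) ^ p * ENNReal.ofReal s⁻¹

/-- Critical tuples `(p, κ, δ, q)`. -/
def Critical (p κ δ q : ℝ) : Prop :=
  ((2 < p ∧ 0 ≤ κ ∧ κ < p / 2 - 1) ∨ (p = 2 ∧ q = 2 ∧ κ = 0)) ∧ -1 < δ ∧ δ ≤ 0 ∧ 2 ≤ q ∧
    κ = -1 + p / 2 * (2 + δ - 3 / q)

/-- The field `u = A^(-β) w`, `β = (1 + δ) / 2`, of `X₁` with coordinate `w`. -/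
noncomputable def fld (O : Set E3) (δ : ℝ) (w : L2) : L2 := negPow O ((1 + δ) / 2) w

/-- The pairing `⟨u, φ⟩` of the element `u` of `X₀` with coordinate `v` and a test field `φ`. -/
noncomputable def pairX (O : Set E3) (δ : ℝ) (v : L2) (φ : E3 → E3) : ℝ :=
  -pair v (negPow O ((1 + δ) / 2) (toL2 (lapl φ)))

/-- The pairing of the element `A^(-δ/2) h` of `X_(1/2)`, with coordinate `h`, and `φ`. -/
noncomputable def pairH (O : Set E3) (δ : ℝ) (h : L2) (φ : E3 → E3) : ℝ :=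
  pairX O δ (negPow O (1 / 2) h) φ

/-! ### Domain and coefficients -/

/-- Bounded domains with smooth boundary. -/
def SmoothDomain (O : Set E3) : Prop :=
  IsOpen O ∧ IsConnected O ∧ Bornology.IsBounded O ∧
    ∃ F : E3 → ℝ, ContDiff ℝ ((⊤ : ℕ∞) : WithTop ℕ∞) F ∧ O = {x | F x < 0} ∧ ∀ x, F x = 0 → fderiv ℝ F x ≠ 0

/-- The `ℓ²` norm of a sequence of vectors. -/
noncomputable def l2n (a : ℕ → E3) : ℝ≥0∞ := (∑' n, ‖a n‖ₑ ^ 2) ^ (1 / 2 : ℝ)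

/-- `b ∈ C^α(O; ℓ²)`. -/
def HolderB (O : Set E3) (α : ℝ) (b : ℕ → E3 → E3) : Prop :=
  ∃ C : ℝ≥0, (∀ x ∈ O, l2n (fun n => b n x) ≤ C) ∧
    ∀ x ∈ O, ∀ y ∈ O, l2n (fun n => b n x - b n y) ≤ C * ENNReal.ofReal (dist x y ^ α)

/-- Parabolicity (with some `ν₀ < ν`), and the assumptions on `g`. -/
structure Coeffs (O : Set E3) (ν : ℝ) (b : ℕ → E3 → E3) (g : ℕ → E3 → E3 → E3) : Prop where
  parabolic : ∃ ν₀ : ℝ, 0 < ν₀ ∧ ν₀ < ν ∧ ∀ x ∈ O, ∀ ξ : E3,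
    ∑' n, ENNReal.ofReal (inner ℝ (b n x) ξ ^ 2) ≤ ENNReal.ofReal (2 * ν₀ * ‖ξ‖ ^ 2)
  g_measurable : ∀ n, Measurable fun z : E3 × E3 => g n z.1 z.2
  g_integrable : ∫⁻ x in O, l2n (fun n => g n x 0) < ∞
  g_bounded : ∃ C : ℝ≥0, ∀ x ∈ O, l2n (fun n => g n x 0) ≤ C
  g_lipschitz : ∃ C : ℝ≥0, ∀ x ∈ O, ∀ y y' : E3,
    l2n (fun n => g n x y - g n x y') ≤ C * ENNReal.ofReal ((1 + ‖y‖ + ‖y'‖) * ‖y - y'‖)

/-! ### Stochastic bases and stochastic integrals -/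

/-- Filtered probability spaces with the usual conditions and a sequence of independent standard
Brownian motions. -/
structure Basis (Ω : Type) [mΩ : MeasurableSpace Ω] where
  P : Measure Ω
  isProb : IsProbabilityMeasure P
  F : Filtration ℝ≥0 mΩ
  complete : ∀ s : Set Ω, P s = 0 → MeasurableSet[F 0] s
  rightCont : F.IsRightContinuous
  W : ℕ → ℝ≥0 → Ω → ℝ
  adapted : ∀ n, StronglyAdapted F (W n)
  brownian : ∀ n, IsBrownianReal (W n) P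
  indep : iIndepFun (fun (n : ℕ) (ω : Ω) (t : ℝ≥0) => W n t ω) P
  increments : ∀ s : ℝ≥0, Indep (F s) (⨆ (n : ℕ) (t : ℝ≥0) (_ : s ≤ t),
    MeasurableSpace.comap (fun ω => W n t ω - W n s ω) inferInstance) P

/-- Lebesgue measure on the time axis `[0, ∞)`. -/
noncomputable def lam : Measure ℝ≥0 := (volume : Measure ℝ).comap ((↑) : ℝ≥0 → ℝ)

/-- Stopping times. -/
def IsStop {Ω : Type} [MeasurableSpace Ω] (B : Basis Ω) (τ : Ω → ℝ≥0∞) : Prop :=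
  ∀ t : ℝ≥0, MeasurableSet[B.F t] {ω | τ ω ≤ t}

/-- `t ∧ a`. -/
noncomputable def cutT (t : ℝ≥0) (a : ℝ≥0∞) : ℝ≥0 := (min (t : ℝ≥0∞) a).toNNReal

/-- `M` is the stochastic integral `∑ₙ ∫ Hₙ dWₙ` on the stochastic interval `[0, τ]`.  Stochastic
integrals are characterised by the martingale property of `M`, `M² - ∫ ∑ₙ Hₙ²` and
`M Wₙ - ∫ Hₙ`, after stopping at the stopping times `ρ ≤ τ` with `E ∫_0^ρ ∑ₙ Hₙ² < ∞`. -/
structure IsStochInt {Ω : Type} [MeasurableSpace Ω] (B : Basis Ω) (τ : Ω → ℝ≥0∞)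
    (H : ℕ → ℝ≥0 → Ω → ℝ) (M : ℝ≥0 → Ω → ℝ) : Prop where
  start : ∀ᵐ ω ∂B.P, M 0 ω = 0
  cont : ∀ᵐ ω ∂B.P, ContinuousOn (fun t => M t ω) {t : ℝ≥0 | (t : ℝ≥0∞) ≤ τ ω}
  sq : ∀ᵐ ω ∂B.P, ∀ T : ℝ≥0,
    ∫⁻ s in {s : ℝ≥0 | s ≤ T ∧ (s : ℝ≥0∞) < τ ω}, ∑' n, ‖H n s ω‖ₑ ^ 2 ∂lam < ∞
  mart : ∀ ρ : Ω → ℝ≥0∞, IsStop B ρ → (∀ ω, ρ ω ≤ τ ω) →
    ∫⁻ ω, ∫⁻ s in {s : ℝ≥0 | (s : ℝ≥0∞) < ρ ω}, ∑' n, ‖H n s ω‖ₑ ^ 2 ∂lam ∂B.P < ∞ →
    Martingale (fun t ω => M (cutT t (ρ ω)) ω) B.F B.P ∧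
    Martingale (fun t ω => M (cutT t (ρ ω)) ω ^ 2 -
      ∫ s in Iic (cutT t (ρ ω)), ∑' n, H n s ω ^ 2 ∂lam) B.F B.P ∧
    ∀ n, Martingale (fun t ω => M (cutT t (ρ ω)) ω * B.W n (cutT t (ρ ω)) ω -
      ∫ s in Iic (cutT t (ρ ω)), H n s ω ∂lam) B.F B.P

/-! ### Solutions -/

/-- A smooth radial kernel supported in the closed unit ball. -/
noncomputable def ker (x : E3) : ℝ := Real.smoothTransition (1 - ‖x‖ ^ 2)

/-- Mollification at scale `ε`. -/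
noncomputable def moll (ε : ℝ) (u : E3 → E3) (x : E3) : E3 :=
  (ε ^ 3 * ∫ y, ker y)⁻¹ • ∫ y, ker (ε⁻¹ • (x - y)) • u y

/-- `⟨(b · ∇) u, φ⟩ = a`, by continuous extension from smooth `u`. -/
def HasTransport (b : E3 → E3) (u φ : E3 → E3) (a : ℝ) : Prop :=
  Tendsto (fun ε : ℝ => ∫ x, inner ℝ (fderiv ℝ (moll ε u) x (b x)) (φ x)) (𝓝[>] 0) (𝓝 a)

/-- `⟨F(u), φ⟩ = ∫ u ⊗ u : ∇ φ = ∫ u · (u · ∇) φ`. -/
noncomputable def conv (u φ : E3 → E3) : ℝ := ∫ x, inner ℝ (u x) (fderiv ℝ φ x (u x))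

/-- `(v, w)` are the `X₀`- and `X₁`-coordinates of a strong solution on `[0, τ]` with initial value
`v₀`, for the tuple `(p, κ, δ, q)`. -/
structure StrongSol {Ω : Type} [MeasurableSpace Ω] (B : Basis Ω) (O : Set E3) (ν : ℝ)
    (b : ℕ → E3 → E3) (g : ℕ → E3 → E3 → E3) (p κ δ q : ℝ) (v₀ : Ω → L2) (τ : Ω → ℝ≥0∞)
    (v w : ℝ≥0 → Ω → L2) : Prop where
  stop : IsStop B τ
  prog_v : IsStronglyProgressive B.F fun t ω => v (cutT t (τ ω)) ω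
  prog_w : IsStronglyProgressive B.F fun t ω =>
    ({s : ℝ≥0 | (s : ℝ≥0∞) < τ ω}.indicator (fun s => w s ω) t : L2)
  init : ∀ᵐ ω ∂B.P, v 0 ω = v₀ ω
  /-- `u ∈ C([0, τ]; X^tr)` -/
  cont : ∀ᵐ ω ∂B.P, ∀ t : ℝ≥0, (t : ℝ≥0∞) ≤ τ ω →
    v t ω ∈ LqS O q ∧ trPow O p κ q (v t ω) < ∞ ∧
    Tendsto (fun s => eLpNorm (v s ω - v t ω : L2) (ENNReal.ofReal q) volume)
      (𝓝[{s : ℝ≥0 | (s : ℝ≥0∞) ≤ τ ω}] t) (𝓝 0) ∧
    Tendsto (fun s => trPow O p κ q (v s ω - v t ω))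
      (𝓝[{s : ℝ≥0 | (s : ℝ≥0∞) ≤ τ ω}] t) (𝓝 0)
  /-- `u ∈ L^p((0, τ), t^κ dt; X₁)` -/
  mem : ∀ᵐ ω ∂B.P, ∀ᵐ (t : ℝ≥0) ∂lam, (t : ℝ≥0∞) < τ ω → w t ω ∈ LqS O q ∧ v t ω = res O 0 (w t ω)
  int : ∀ᵐ ω ∂B.P, ∀ T : ℝ≥0, ∫⁻ t in {t : ℝ≥0 | t ≤ T ∧ (t : ℝ≥0∞) < τ ω},
    eLpNorm (w t ω) (ENNReal.ofReal q) volume ^ p * ENNReal.ofReal ((t : ℝ) ^ κ) ∂lam < ∞
  /-- `F(u) ∈ L^p((0, τ), t^κ dt; X₀)` -/
  drift : ∃ f : ℝ≥0 → Ω → L2,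
    IsStronglyProgressive B.F (fun t ω =>
      ({s : ℝ≥0 | (s : ℝ≥0∞) < τ ω}.indicator (fun s => f s ω) t : L2)) ∧
    (∀ᵐ ω ∂B.P, ∀ᵐ (t : ℝ≥0) ∂lam, (t : ℝ≥0∞) < τ ω → f t ω ∈ LqS O q ∧
      ∀ φ ∈ TF O, conv (fld O δ (w t ω)) φ = pairX O δ (f t ω) φ) ∧
    ∀ᵐ ω ∂B.P, ∀ T : ℝ≥0, ∫⁻ t in {t : ℝ≥0 | t ≤ T ∧ (t : ℝ≥0∞) < τ ω},
      eLpNorm (f t ω) (ENNReal.ofReal q) volume ^ p * ENNReal.ofReal ((t : ℝ) ^ κ) ∂lam < ∞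
  /-- `B u + G(u) ∈ L^p((0, τ), t^κ dt; γ(ℓ², X_(1/2)))`, with coordinates `h n`, and the equation:
  `⟨u(t), φ⟩ - ⟨u(0), φ⟩ - ∫_0^t (ν ⟨u, Δφ⟩ + ⟨F(u), φ⟩) ds` is the stochastic integral of
  `⟨(bₙ · ∇) u + gₙ(·, u), φ⟩`. -/
  eqn : ∃ h : ℕ → ℝ≥0 → Ω → L2,
    (∀ n, IsStronglyProgressive B.F (fun t ω =>
      ({s : ℝ≥0 | (s : ℝ≥0∞) < τ ω}.indicator (fun s => h n s ω) t : L2))) ∧
    (∀ᵐ ω ∂B.P, ∀ᵐ (t : ℝ≥0) ∂lam, (t : ℝ≥0∞) < τ ω → ∀ n, h n t ω ∈ LqS O q ∧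
      ∀ φ ∈ TF O, HasTransport (b n) (fld O δ (w t ω)) φ
        (pairH O δ (h n t ω) φ - ∫ x, inner ℝ (g n x (fld O δ (w t ω) x)) (φ x))) ∧
    (∀ᵐ ω ∂B.P, ∀ T : ℝ≥0, ∫⁻ t in {t : ℝ≥0 | t ≤ T ∧ (t : ℝ≥0∞) < τ ω},
      (∫⁻ x, (∑' n, ‖h n t ω x‖ₑ ^ 2) ^ (q / 2)) ^ (p / q) * ENNReal.ofReal ((t : ℝ) ^ κ) ∂lam
        < ∞) ∧
    ∀ φ ∈ TF O, IsStochInt B τ (fun n t ω => pairH O δ (h n t ω) φ)
      (fun t ω => pairX O δ (v t ω) φ - pairX O δ (v 0 ω) φ -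
        ∫ s in Iic t, (ν * pair (fld O δ (w s ω)) (lapl φ) + conv (fld O δ (w s ω)) φ) ∂lam)

/-- Local strong solutions on `[0, σ)`: there is a localizing sequence. -/
def LocalSol {Ω : Type} [MeasurableSpace Ω] (B : Basis Ω) (O : Set E3) (ν : ℝ)
    (b : ℕ → E3 → E3) (g : ℕ → E3 → E3 → E3) (p κ δ q : ℝ) (v₀ : Ω → L2) (σ : Ω → ℝ≥0∞)
    (v w : ℝ≥0 → Ω → L2) : Prop :=
  ∃ τ : ℕ → Ω → ℝ≥0∞, (∀ n, StrongSol B O ν b g p κ δ q v₀ (τ n) v w) ∧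
    (∀ n ω, τ n ω ≤ τ (n + 1) ω) ∧ ∀ᵐ ω ∂B.P, ⨆ n, τ n ω = σ ω

/-- Unique local solutions: every local solution with the same initial value agrees with it as long
as both exist. -/
def MaximalSol {Ω : Type} [MeasurableSpace Ω] (B : Basis Ω) (O : Set E3) (ν : ℝ)
    (b : ℕ → E3 → E3) (g : ℕ → E3 → E3 → E3) (p κ δ q : ℝ) (v₀ : Ω → L2) (σ : Ω → ℝ≥0∞)
    (v w : ℝ≥0 → Ω → L2) : Prop :=
  LocalSol B O ν b g p κ δ q v₀ σ v w ∧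
    ∀ (σ' : Ω → ℝ≥0∞) (v' w' : ℝ≥0 → Ω → L2), LocalSol B O ν b g p κ δ q v₀ σ' v' w' →
      ∀ᵐ ω ∂B.P, ∀ t : ℝ≥0, (t : ℝ≥0∞) < σ ω → (t : ℝ≥0∞) < σ' ω → v' t ω = v t ω

/-- Local well-posedness for the tuple `(p, κ, δ, q)`, without maximality: every `F₀`-measurable
initial value in `X^tr` yields a unique local strong solution with `σ > 0` a.s. -/
def LWP {Ω : Type} [MeasurableSpace Ω] (B : Basis Ω) (O : Set E3) (ν : ℝ)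
    (b : ℕ → E3 → E3) (g : ℕ → E3 → E3 → E3) (p κ δ q : ℝ) : Prop :=
  ∀ v₀ : Ω → L2, StronglyMeasurable[B.F 0] v₀ →
    (∀ ω, v₀ ω ∈ LqS O q ∧ trPow O p κ q (v₀ ω) < ∞) →
    ∃ (σ : Ω → ℝ≥0∞) (v w : ℝ≥0 → Ω → L2),
      MaximalSol B O ν b g p κ δ q v₀ σ v w ∧ ∀ᵐ ω ∂B.P, 0 < σ ω

/-- The negative answer: there are a smooth bounded domain, `ν`, `b` (parabolic, Hölder) and `g`
such that for every stochastic basis and every critical tuple with `b ∈ C^α`, `α > -δ`, local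
well-posedness fails. -/
def NegQ1 : Prop :=
  ∃ (O : Set E3) (ν : ℝ) (b : ℕ → E3 → E3) (g : ℕ → E3 → E3 → E3),
    SmoothDomain O ∧ 0 < ν ∧ Coeffs O ν b g ∧ (∃ α : ℝ, 0 < α ∧ α < 1 ∧ HolderB O α b) ∧
    ∀ (Ω : Type) (_ : MeasurableSpace Ω) (B : Basis Ω) (p κ δ q : ℝ), Critical p κ δ q →
      (∃ α : ℝ, -δ < α ∧ 0 < α ∧ α ≤ 1 ∧ HolderB O α b) → ¬ LWP B O ν b g p κ δ q

end Pool.Agent.W_332fe5
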