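import Pool.Agent.W_332fe5.Core

set_option autoImplicit false

/-!
What blocks 6 and 7 (two-point functional and final contradiction) need from blocks 1 and 5.
All integrals are lower Lebesgue integrals, so no measurability or integrability is part of the
statements (for fixed `(t, ω)` the inner integrals depend on the classes of `w` and `u` only).
-/

open MeasureTheory ProbabilityTheory Set Filter Topology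
open scoped ENNReal NNReal

namespace Pool.Agent.W_332fe5

/-! ### From block 1 -/

/-- (1.3) `T_β` is a bounded linear operator of `L²`. -/
def Need1Lin (δ : ℝ) : Prop := ∃ L : L2 →L[ℝ] L2, ∀ w : L2, L w = fld Bl δ w

/-- (1.5) `∫ |u|² y^(-3/2) ≤ K ‖w‖²` for `u = T_β w`. -/
def Need1Reg (δ : ℝ) : Prop := ∃ K : ℝ, 0 ≤ K ∧ ∀ w : L2,
  ∫⁻ x in Bl, ENNReal.ofReal (‖fld Bl δ w x‖ ^ 2 * yy x ^ (-(3 / 2 : ℝ))) ≤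
    ENNReal.ofReal (K * ‖w‖ ^ 2)

/-- (7.1), from Lemma L (1.11) with `b = β`, `r = q'`, and the symmetry of `T_β`:
`N_R ≤ C R^(2 + δ - 1/q) ‖w‖_q`. -/
def Need1Gam (δ q : ℝ) : Prop := ∃ K : ℝ, 0 ≤ K ∧ ∀ w ∈ LqS Bl q, RotInv w → ∀ R : ℝ, 0 < R →
  R ≤ 1 / 8 → ∫⁻ x in Bl, ENNReal.ofReal (|Gam δ w x| * Real.exp (-yy x / R)) ≤
    ENNReal.ofReal (K * R ^ (2 + δ - 1 / q)) * eLpNorm w (ENNReal.ofReal q) volume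

/-! ### From block 5 -/

/-- (5.4) `|Γ| ≤ 1`. -/
def Need5Bdd (zt p κ δ q : ℝ) : Prop := ∀ C : Core zt p κ δ q,
  ∀ᵐ z ∂((volume.restrict (Ioo (0 : ℝ) 1)).prod C.P), ∀ᵐ x ∂(volume : Measure E3),
    |Gam δ (C.w z.1 z.2) x| ≤ 1

/-- (5.5') `E ∫_0^(T ∧ S) ∫ |Γ| y^(-ζ) e^(-y/√T) ≤ K T^((3 - ζ)/2)`. -/
def Need5Abs (zt p κ δ q : ℝ) : Prop := ∃ K : ℝ, 0 ≤ K ∧ ∃ T₀ : ℝ, 0 < T₀ ∧ T₀ ≤ 1 ∧
  ∀ C : Core zt p κ δ q, ∀ T : ℝ, 0 < T → T ≤ T₀ →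
    ∫⁻ z in Ioo (0 : ℝ) T ×ˢ univ, (∫⁻ x in Bl, ENNReal.ofReal
      (|Gam δ (C.w z.1 z.2) x| * yy x ^ (-zt) * Real.exp (-yy x / Real.sqrt T)))
      ∂((volume : Measure ℝ).prod C.P) ≤ ENNReal.ofReal (K * T ^ ((3 - zt) / 2))

/-- (5.4), (5.6): the value at the time `T ∧ S` has a density `G` with `|G| ≤ 1` and
`E ∫ G⁴ e^(-y/√T) ≤ K T^((1 + 4 μ)/2)`. -/
def Need5G (zt p κ δ q : ℝ) : Prop := ∃ K : ℝ, 0 ≤ K ∧ ∃ T₀ : ℝ, 0 < T₀ ∧ T₀ ≤ 1 ∧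
  ∀ C : Core zt p κ δ q, ∀ T : ℝ, 0 < T → T ≤ T₀ → ∃ G : C.Ω → E3 → ℝ,
    Measurable (Function.uncurry G) ∧ (∀ ω x, |G ω x| ≤ 1) ∧
    (∀ᵐ ω ∂C.P, ∀ h ∈ CB, C.X h T ω = ∫ x, G ω x * h x) ∧
    ∫⁻ ω, (∫⁻ x in Bl, ENNReal.ofReal (G ω x ^ 4 * Real.exp (-yy x / Real.sqrt T))) ∂C.P ≤
      ENNReal.ofReal (K * T ^ ((1 + 4 * mu) / 2))

/-- (5.7) `E ∫_0^S ∫ |Γ| e^(-y/R) ≤ K R²`. -/
def Need5Wall (zt p κ δ q : ℝ) : Prop := ∃ K : ℝ, 0 ≤ K ∧ ∃ R₀ : ℝ, 0 < R₀ ∧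
  ∀ C : Core zt p κ δ q, ∀ R : ℝ, 0 < R → R ≤ R₀ →
    ∫⁻ z in Ioo (0 : ℝ) 1 ×ˢ univ, (∫⁻ x in Bl, ENNReal.ofReal
      (|Gam δ (C.w z.1 z.2) x| * Real.exp (-yy x / R))) ∂((volume : Measure ℝ).prod C.P) ≤
      ENNReal.ofReal (K * R ^ 2)

end Pool.Agent.W_332fe5
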