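import Pool.Agent.W_332fe5.Defs

set_option autoImplicit false

/-! Geometry of the unit ball, the data of the counterexample, the scalar functionals. -/

open MeasureTheory ProbabilityTheory Set Filter Topology
open scoped ENNReal NNReal

namespace Pool.Agent.W_332fe5

/-- The open unit ball. -/
def Bl : Set E3 := Metric.ball 0 1

/-- `y(x) = (1 - |x|²) / 2`. -/
noncomputable def yy (x : E3) : ℝ := (1 - ‖x‖ ^ 2) / 2

/-- `m(x) = e₃ × x`. -/
noncomputable def mm (x : E3) : E3 := !₂[-x 1, x 0, 0]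

/-- `e₃ × a` as a linear map is the same expression as `mm`. The squared distance to the axis. -/
noncomputable def ax2 (x : E3) : ℝ := x 0 ^ 2 + x 1 ^ 2

/-- `k(x) = 2 (x₁, x₂, 0) / (x₁² + x₂²)` (zero on the axis). -/
noncomputable def kk (x : E3) : E3 := (2 / ax2 x) • !₂[x 0, x 1, 0]

/-- The constant `c = √(-2 cos (π / ζ))`; `c² / 2 < 1`. -/
noncomputable def cc (zt : ℝ) : ℝ := Real.sqrt (-2 * Real.cos (Real.pi / zt))

/-- `b₀(x) = c x`, `b₁(x) = r(x) m(x)`. -/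
noncomputable def bEx (zt : ℝ) (r : E3 → ℝ) (n : ℕ) (x : E3) : E3 :=
  if n = 0 then cc zt • x else if n = 1 then r x • mm x else 0

/-- `g₀(x, y) = c y`, `g₁(x, y) = - r(x) e₃ × y`. -/
noncomputable def gEx (zt : ℝ) (r : E3 → ℝ) (n : ℕ) (x y : E3) : E3 :=
  if n = 0 then cc zt • y else if n = 1 then -(r x • mm y) else 0

/-- The rotation by the angle `a` about the third axis. -/
noncomputable def rot (a : ℝ) (x : E3) : E3 :=
  !₂[Real.cos a * x 0 - Real.sin a * x 1, Real.sin a * x 0 + Real.cos a * x 1, x 2]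

/-- The reflection `(x₁, x₂, x₃) ↦ (x₁, -x₂, x₃)`. -/
noncomputable def sg (x : E3) : E3 := !₂[x 0, -x 1, x 2]

/-- Rotation of a field: `(R_a f)(x) = R_a f(R_(-a) x)`. -/
noncomputable def rotF (a : ℝ) (f : E3 → E3) (x : E3) : E3 := rot a (f (rot (-a) x))

/-- Reflection of a field. -/
noncomputable def sgF (f : E3 → E3) (x : E3) : E3 := sg (f (sg x))

/-- Rotation invariant (axisymmetric) fields. -/
def RotInv (f : L2) : Prop := ∀ a : ℝ, rotF a f =ᵐ[volume] f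

/-- Swirl fields: rotation invariant and odd under the reflection. -/
def Swirl (f : L2) : Prop := RotInv f ∧ sgF f =ᵐ[volume] fun x => -f x

/-- Scalar Laplacian. -/
noncomputable def slap (h : E3 → ℝ) (x : E3) : ℝ :=
  ∑ j : Fin 3, fderiv ℝ (fun z => fderiv ℝ h z (EuclideanSpace.single j 1)) x
    (EuclideanSpace.single j 1)

/-- Scalar test functions on the ball. -/
def CB : Set (E3 → ℝ) :=
  {h | ContDiff ℝ ((⊤ : ℕ∞) : WithTop ℕ∞) h ∧ HasCompactSupport h ∧ tsupport h ⊆ Bl}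

/-- The swirl `Γ = u · m` of `u = A^(-β) w`. -/
noncomputable def Gam (δ : ℝ) (w : L2) (x : E3) : ℝ := inner ℝ (fld Bl δ w x) (mm x)

/-- The drift functional `a(h) = ∫ Γ (Δh + k · ∇h + u · ∇h)`. -/
noncomputable def aF (δ : ℝ) (w : L2) (h : E3 → ℝ) : ℝ :=
  ∫ x, Gam δ w x * (slap h x + fderiv ℝ h x (kk x) + fderiv ℝ h x (fld Bl δ w x))

/-- The noise functional `b(h) = -c ∫ Γ (x · ∇h + 3 h)`. -/
noncomputable def bF (zt δ : ℝ) (w : L2) (h : E3 → ℝ) : ℝ :=
  -cc zt * ∫ x, Gam δ w x * (fderiv ℝ h x x + 3 * h x)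

/-- The exponent `μ = 1/16` of the initial datum. -/
noncomputable def mu : ℝ := 1 / 16

/-- The initial swirl `Γ₀ = (2 y)^μ (x₁² + x₂²)` on the ball. -/
noncomputable def Gam0 (x : E3) : ℝ := Bl.indicator (fun x => (2 * yy x) ^ mu * ax2 x) x

/-- The initial velocity `u₀ = (2 y)^μ m` on the ball. -/
noncomputable def u0 (x : E3) : E3 := Bl.indicator (fun x => (2 * yy x) ^ mu • mm x) x

/-- A `C⁴` norm. -/
noncomputable def c4 (h : E3 → ℝ) : ℝ :=
  ∑ k ∈ Finset.range 5, ⨆ x, ‖iteratedFDeriv ℝ k h x‖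

/-- The parameters: `ζ ∈ (1, 6/5]`, a critical tuple with `δ ≥ 3ζ/4 - 1`. -/
structure Par (zt p κ δ q : ℝ) : Prop where
  z1 : 1 < zt
  z2 : zt ≤ 6 / 5
  hp : 2 < p
  k0 : 0 ≤ κ
  k1 : κ < p / 2 - 1
  d0 : 3 * zt / 4 - 1 ≤ δ
  d1 : δ ≤ 0
  hq : 2 ≤ q
  crit : κ = -1 + p / 2 * (2 + δ - 3 / q)

end Pool.Agent.W_332fe5
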